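import Mathlib

set_option autoImplicit false
open Finset

namespace Pool.Agent.Q265.OCC

/-- weighted sums over independent sets: first entry `∑ 2^|I|`, second entry `∑ |I| 2^|I|` -/
def F (cm : ℕ → ℕ) : ℕ → ℕ → ℕ × ℕ
  | 0, _ => (1, 0)
  | i + 1, a => if a.testBit i then
      ((F cm i a).1 + 2 * (F cm i (a &&& cm i)).1,
        (F cm i a).2 + 2 * ((F cm i (a &&& cm i)).1 + (F cm i (a &&& cm i)).2))
    else F cm i a

def Ind (cm : ℕ → ℕ) (a : ℕ) (I : Finset ℕ) : Prop :=
  (∀ i ∈ I, a.testBit i = true) ∧ ∀ i ∈ I, ∀ j ∈ I, j < i → (cm i).testBit j = true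

theorem ind_insert (cm : ℕ → ℕ) (a i : ℕ) (I : Finset ℕ) (hI : I ⊆ range i) :
    Ind cm a (insert i I) ↔ a.testBit i = true ∧ Ind cm (a &&& cm i) I := by
  have hlt : ∀ j ∈ I, j < i := fun j hj => mem_range.1 (hI hj)
  unfold Ind
  constructor
  · rintro ⟨h1, h2⟩
    refine ⟨h1 i (mem_insert_self _ _), fun j hj => ?_, fun k hk j hj hjk => h2 k (mem_insert_of_mem hk) j (mem_insert_of_mem hj) hjk⟩
    rw [Nat.testBit_and, h1 j (mem_insert_of_mem hj), h2 i (mem_insert_self _ _) j (mem_insert_of_mem hj) (hlt j hj)]
    rfl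
  · rintro ⟨h0, h1, h2⟩
    have h3 : ∀ j ∈ I, a.testBit j = true ∧ (cm i).testBit j = true := by
      intro j hj
      have := h1 j hj
      rw [Nat.testBit_and, Bool.and_eq_true] at this
      exact this
    constructor
    · intro k hk
      rcases mem_insert.1 hk with rfl | hk
      · exact h0
      · exact (h3 k hk).1
    · intro k hk j hj hjk
      rcases mem_insert.1 hk with rfl | hk
      · rcases mem_insert.1 hj with rfl | hj
        · exact absurd hjk (lt_irrefl _)
        · exact (h3 j hj).2
      · rcases mem_insert.1 hj with hji | hj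
        · have := hlt k hk; omega
        · exact h2 k hk j hj hjk

open Classical in
theorem F_spec (cm : ℕ → ℕ) : ∀ (i a : ℕ),
    (∑ I ∈ (range i).powerset, if Ind cm a I then 2 ^ I.card else 0) = (F cm i a).1 ∧
    (∑ I ∈ (range i).powerset, if Ind cm a I then I.card * 2 ^ I.card else 0) = (F cm i a).2 := by
  intro i
  induction i with
  | zero =>
    intro a
    have : Ind cm a ∅ := ⟨by simp, by simp⟩
    constructor
    · simp [this, F]
    · simp [F]
  | succ i ih =>
    intro a
    have hni : i ∉ range i := by simp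
    have hcard : ∀ I ∈ (range i).powerset, (insert i I).card = I.card + 1 := by
      intro I hI
      rw [card_insert_of_notMem]
      intro h
      exact hni ((mem_powerset.1 hI) h)
    rw [range_add_one, sum_powerset_insert hni, sum_powerset_insert hni]
    by_cases hb : a.testBit i = true
    · have h1 : ∀ I ∈ (range i).powerset, (if Ind cm a (insert i I) then 2 ^ (insert i I).card else 0) =
          2 * (if Ind cm (a &&& cm i) I then 2 ^ I.card else 0) := by
        intro I hI
        rw [hcard I hI]
        have := ind_insert cm a i I (mem_powerset.1 hI)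
        by_cases h : Ind cm (a &&& cm i) I
        · rw [if_pos (this.2 ⟨hb, h⟩), if_pos h]; ring
        · rw [if_neg (fun h' => h (this.1 h').2), if_neg h]
      have h2 : ∀ I ∈ (range i).powerset, (if Ind cm a (insert i I) then (insert i I).card * 2 ^ (insert i I).card else 0) =
          2 * ((if Ind cm (a &&& cm i) I then 2 ^ I.card else 0) + (if Ind cm (a &&& cm i) I then I.card * 2 ^ I.card else 0)) := by
        intro I hI
        rw [hcard I hI]
        have := ind_insert cm a i I (mem_powerset.1 hI)
        by_cases h : Ind cm (a &&& cm i) I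
        · rw [if_pos (this.2 ⟨hb, h⟩), if_pos h, if_pos h]; ring
        · rw [if_neg (fun h' => h (this.1 h').2), if_neg h, if_neg h]
      rw [sum_congr rfl h1, sum_congr rfl h2, ← mul_sum, ← mul_sum, sum_add_distrib, (ih a).1, (ih a).2,
        (ih (a &&& cm i)).1, (ih (a &&& cm i)).2]
      simp only [F, hb, if_true, and_self]
    · have h1 : ∀ I ∈ (range i).powerset, (if Ind cm a (insert i I) then 2 ^ (insert i I).card else 0) = 0 := by
        intro I hI
        have := ind_insert cm a i I (mem_powerset.1 hI)
        rw [if_neg (fun h' => hb (this.1 h').1)]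
      have h2 : ∀ I ∈ (range i).powerset, (if Ind cm a (insert i I) then (insert i I).card * 2 ^ (insert i I).card else 0) = 0 := by
        intro I hI
        have := ind_insert cm a i I (mem_powerset.1 hI)
        rw [if_neg (fun h' => hb (this.1 h').1)]
      rw [sum_congr rfl h1, sum_congr rfl h2, (ih a).1, (ih a).2]
      simp [F, hb]

open Classical in
/-- transfer to a graph on a finite type -/
theorem sums {V : Type} [Fintype V] (n : ℕ) (e : Fin n ≃ V) (G : SimpleGraph V) (cm : ℕ → ℕ)
    (hcm : ∀ i j : Fin n, j < i → (G.Adj (e i) (e j) ↔ (cm i).testBit j = false)) :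
    (∑ I : Finset V, if G.IsIndepSet (I : Set V) then (2 : ℝ) ^ I.card else 0) = ((F cm n (2 ^ n - 1)).1 : ℝ) ∧
    (∑ I : Finset V, if G.IsIndepSet (I : Set V) then (I.card : ℝ) * (2 : ℝ) ^ I.card else 0) =
      ((F cm n (2 ^ n - 1)).2 : ℝ) := by
  -- bijection Finset V ≃ powerset (range n)
  let φ : V → ℕ := fun v => (e.symm v).1
  have hφ : Function.Injective φ := fun v w h => e.symm.injective (Fin.ext h)
  have hφn : ∀ v, φ v < n := fun v => (e.symm v).2
  have hind : ∀ I : Finset V, G.IsIndepSet (I : Set V) ↔ Ind cm (2 ^ n - 1) (I.image φ) := by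
    intro I
    unfold Ind
    constructor
    · intro h
      refine ⟨?_, ?_⟩
      · intro i hi
        obtain ⟨v, _, rfl⟩ := mem_image.1 hi
        rw [Nat.testBit_two_pow_sub_one]
        simp [hφn v]
      · intro i hi j hj hji
        obtain ⟨v, hv, rfl⟩ := mem_image.1 hi
        obtain ⟨w, hw, rfl⟩ := mem_image.1 hj
        have hne : v ≠ w := by rintro rfl; exact absurd hji (lt_irrefl _)
        have h1 : ¬ G.Adj v w := h hv hw hne
        have h2 := hcm (e.symm v) (e.symm w) hji
        rw [e.apply_symm_apply, e.apply_symm_apply] at h2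
        rw [h2] at h1
        simpa using h1
    · rintro ⟨-, h2⟩ v hv w hw hne hadj
      have hv' : φ v ∈ I.image φ := mem_image_of_mem _ hv
      have hw' : φ w ∈ I.image φ := mem_image_of_mem _ hw
      have key : ∀ v w : V, φ v ∈ I.image φ → φ w ∈ I.image φ → φ w < φ v → ¬ G.Adj v w := by
        intro v w hv hw hlt hadj
        have h3 := hcm (e.symm v) (e.symm w) hlt
        rw [e.apply_symm_apply, e.apply_symm_apply] at h3
        have h4 := h2 _ hv _ hw hlt
        have h5 := h3.1 hadj
        rw [h4] at h5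
        exact Bool.noConfusion h5
      rcases lt_trichotomy (φ v) (φ w) with h | h | h
      · exact key w v hw' hv' h hadj.symm
      · exact hne (hφ h)
      · exact key v w hv' hw' h hadj
  have hbij : ∀ g : ℕ → ℕ, (∑ I : Finset V, if G.IsIndepSet (I : Set V) then g I.card else 0) =
      ∑ I ∈ (range n).powerset, if Ind cm (2 ^ n - 1) I then g I.card else 0 := by
    intro g
    refine sum_bij (fun I _ => I.image φ) ?_ ?_ ?_ ?_
    · intro I _
      rw [mem_powerset]
      intro x hx
      obtain ⟨v, _, rfl⟩ := mem_image.1 hx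
      exact mem_range.2 (hφn v)
    · intro I _ J _ h
      exact image_injective hφ h
    · intro J hJ
      refine ⟨univ.filter (fun v => φ v ∈ J), mem_univ _, ?_⟩
      ext x
      simp only [mem_image, mem_filter, mem_univ, true_and]
      constructor
      · rintro ⟨v, hv, rfl⟩; exact hv
      · intro hx
        have hxn := mem_range.1 ((mem_powerset.1 hJ) hx)
        refine ⟨e ⟨x, hxn⟩, ?_, ?_⟩
        · simpa [φ] using hx
        · simp [φ]
    · intro I _
      rw [card_image_of_injective _ hφ]
      by_cases h : G.IsIndepSet (I : Set V)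
      · rw [if_pos h, if_pos ((hind I).1 h)]
      · rw [if_neg h, if_neg (fun h' => h ((hind I).2 h'))]
  have h1 := hbij (fun k => 2 ^ k)
  have h2 := hbij (fun k => k * 2 ^ k)
  rw [(F_spec cm n (2 ^ n - 1)).1] at h1
  rw [(F_spec cm n (2 ^ n - 1)).2] at h2
  constructor
  · rw [← h1]
    push_cast
    rfl
  · rw [← h2]
    push_cast
    rfl

/-- transfer, for an arbitrary decidability instance -/
theorem sums' {V : Type} [Fintype V] (n : ℕ) (e : Fin n ≃ V) (G : SimpleGraph V) (cm : ℕ → ℕ)
    (hcm : ∀ i j : Fin n, j < i → (G.Adj (e i) (e j) ↔ (cm i).testBit j = false))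
    (dec : ∀ I : Finset V, Decidable (G.IsIndepSet (I : Set V))) :
    (∑ I : Finset V, if G.IsIndepSet (I : Set V) then (2 : ℝ) ^ I.card else 0) = ((F cm n (2 ^ n - 1)).1 : ℝ) ∧
    (∑ I : Finset V, if G.IsIndepSet (I : Set V) then (I.card : ℝ) * (2 : ℝ) ^ I.card else 0) =
      ((F cm n (2 ^ n - 1)).2 : ℝ) := by
  have h := sums n e G cm hcm
  constructor
  · rw [← h.1]
    refine Finset.sum_congr rfl (fun I _ => ?_)
    congr
  · rw [← h.2]
    refine Finset.sum_congr rfl (fun I _ => ?_)
    congr

def cm20 : ℕ → ℕ := fun i => ([1029117, 917466, 1015277, 784111, 1023987, 982717, 1029983, 1006527, 1015255, 1043195, 785790, 524214, 441855, 851823, 1044398, 523899, 774111, 253949, 850935, 878591] : List ℕ).getD i 0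

def cm13 : ℕ → ℕ := fun i => ([3805, 7610, 7029, 5867, 3543, 7086, 5981, 3771, 7542, 6893, 5595, 2999, 5998] : List ℕ).getD i 0

theorem F20 : F cm20 20 (2 ^ 20 - 1) = (72225, 359800) := by decide +kernel

theorem F13 : F cm13 13 (2 ^ 13 - 1) = (1483, 4810) := by decide +kernel

end Pool.Agent.Q265.OCC
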